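import Pool.Agent.Helper74.LL.GoalsR
import Pool.Agent.Helper45.LL.RA0

/-!
# Project LL (MP_cc6379_al), packet RA1 (helper13)
-/

set_option autoImplicit false

open Pool.Agent.Helper15.RA Pool.Agent.Helper45.AM Pool.Agent.Helper74.LL
open Pool.Agent.Helper45.LL.RA0 (simple_mem rd_len nrd_len ld_len nld_len rd_mul nrd_mul ld_mul xr_pair xl_pair
  two_letters)

noncomputable section

namespace Pool.Agent.Helper13.LL.RA1

theorem nld_mul {S W : Type} [Group W] {M : CoxeterMatrix S} {cs : CoxeterSystem M W} {w : W} {i : S}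
    (h : ¬ cs.IsLeftDescent w i) : cs.IsLeftDescent (cs.simple i * w) i := by
  rw [cs.isLeftDescent_iff, cs.simple_mul_simple_cancel_left, nld_len h]

/-- a product `a b a = p q p` -/
theorem three_letters {S W : Type} [Group W] {M : CoxeterMatrix S} {cs : CoxeterSystem M W} (hKD1 : KD1)
    {a b p q : S} (hab : a ≠ b) (hpq : p ≠ q) (hM : ∀ i j, M i j ≠ 0) (h7 : 7 ≤ M a b) (hpq7 : 7 ≤ M p q)
    (h : cs.simple a * cs.simple b * cs.simple a = cs.simple p * cs.simple q * cs.simple p) : p = a ∧ q = b := by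
  have hB := (Pool.Agent.Helper15.AM.k_gpb S W M cs).2 {a, b}
  obtain ⟨hB1, -, -, -, hB5, -⟩ := hB
  have h2 : cs.length (cs.simple p * cs.simple q) = 2 := (hKD1 S W M cs p q hpq (hM p q)).2.2.2.2.2.2.2.2.1
  have h3 : cs.length (cs.simple p * cs.simple q * cs.simple p) = 3 :=
    (hKD1 S W M cs p q hpq (hM p q)).2.2.2.2.2.2.2.2.2.1 (by omega)
  have hsa : cs.simple a ∈ par cs {a, b} := simple_mem cs (by simp)
  have hsb : cs.simple b ∈ par cs {a, b} := simple_mem cs (by simp)
  have hmem : cs.simple p * cs.simple q * cs.simple p ∈ par cs {a, b} := by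
    rw [← h]
    exact (par cs {a, b}).mul_mem ((par cs {a, b}).mul_mem hsa hsb) hsa
  have h4 := hB5 (cs.simple p * cs.simple q) (cs.simple p) (by rw [h3, h2, cs.length_simple]) hmem
  have h5 := hB5 (cs.simple p) (cs.simple q) (by rw [h2, cs.length_simple, cs.length_simple]) h4.1
  have hp := hB1 p h5.1
  have hq := hB1 q h5.2
  rw [Set.mem_insert_iff, Set.mem_singleton_iff] at hp hq
  rcases hp with hp | hp <;> rcases hq with hq | hq
  · exact absurd (hp.trans hq.symm) hpq
  · exact ⟨hp, hq⟩
  · rw [hp, hq] at h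
    exact absurd h ((hKD1 S W M cs a b hab (hM a b)).2.2.2.2.2.2.2.2.2.2 h7)
  · exact absurd (hp.trans hq.symm) hpq

theorem t (hKD1 : KD1) (hKD2 : KD2) (hK1 : K1) (hGEO : GEO) : RA1 := by
  intro S W _ M cs hL a b c x y hab hac hMbc hx hx0 hy
  obtain ⟨-, -, -, -, -, -, szR, -, -, -⟩ := hK1 S W M cs hL
  obtain ⟨-, dL, pR, pL, -, -, -, -, -, -, -⟩ := hKD2 S W M cs
  have geo := hGEO S W M cs hL
  have hbc : b ≠ c := by
    rintro rfl
    rw [M.diagonal] at hMbc
    omega
  have hMcb : M c b = 2 := by rw [M.symmetric]; exact hMbc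
  have hMac : M a c ≠ 2 := by
    intro h1
    rw [M.symmetric] at h1
    exact hab (hL.mat c a b h1 hMcb)
  have hMab : M a b ≠ 2 := by
    intro h1
    rw [M.symmetric] at h1
    exact hac (hL.mat b a c h1 hMbc)
  have hPA := (Pool.Agent.Helper15.AM.k_gpa S W M cs {a, c}).2.2
  obtain ⟨-, -, -, hPC4, hPC5, -, -⟩ := Pool.Agent.Helper15.AM.k_gpc S W M cs {a, b}
  have h7ac := hL.big a c hac hMac
  have h7ab := hL.big a b hab hMab
  obtain ⟨⟨wac_mem, -, -, wac_len, -⟩, -, wac3, ⟨wac_Ra, wac_Rc, wac_La, wac_Lc⟩, -⟩ :=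
    hKD1 S W M cs a c hac (hL.fin a c)
  obtain ⟨-, -, -, -, fab, oneab, -, -, len2ab, len3ab, -⟩ := hKD1 S W M cs a b hab (hL.fin a b)
  have sa_ac : cs.simple a ∈ par cs {a, c} := simple_mem cs (by simp)
  have sc_ac : cs.simple c ∈ par cs {a, c} := simple_mem cs (by simp)
  have sa_ab : cs.simple a ∈ par cs {a, b} := simple_mem cs (by simp)
  have sb_ab : cs.simple b ∈ par cs {a, b} := simple_mem cs (by simp)
  -- the element h
  obtain ⟨h, hh⟩ : ∃ h, h = w0 cs a c * cs.simple c := ⟨_, rfl⟩
  have h_mem : h ∈ par cs {a, c} := hh ▸ (par cs {a, c}).mul_mem wac_mem sc_ac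
  have h_len : cs.length h + 1 = M a c := by
    rw [hh, rd_len wac_Rc, wac_len]
  have h_nc : ¬ cs.IsRightDescent h c := by
    rw [hh]
    exact rd_mul wac_Rc
  have h_ne1 : h ≠ 1 := by
    intro h1
    rw [h1, cs.length_one] at h_len
    omega
  have h_Ra : cs.IsRightDescent h a := ((wac3 h h_mem).2 h_ne1).1.resolve_right h_nc
  -- the element h a
  have ha_mem : h * cs.simple a ∈ par cs {a, c} := (par cs {a, c}).mul_mem h_mem sa_ac
  have ha_len : cs.length (h * cs.simple a) + 2 = M a c := by
    have := rd_len h_Ra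
    omega
  have ha_na : ¬ cs.IsRightDescent (h * cs.simple a) a := rd_mul h_Ra
  -- the element w a
  have wa_mem : w0 cs a c * cs.simple a ∈ par cs {a, c} := (par cs {a, c}).mul_mem wac_mem sa_ac
  have wa_len : cs.length (w0 cs a c * cs.simple a) + 1 = M a c := by
    rw [rd_len wac_Ra, wac_len]
  have szx : ∀ z ∈ par cs {a, c}, 3 ≤ cs.length z → ∀ r, r ≠ a → r ≠ c → ¬ cs.IsRightDescent (x * z) r := by
    intro z hz h3 r hra hrc h1
    have := szR a r c x z hac hra hrc hx hz h1
    omega
  -- first clause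
  have XRX : XR cs {a, b} (x * (h * cs.simple a)) :=
    xr_pair (fun h1 => ha_na ((pR {a, c} x _ a hx ha_mem (by simp)).1 h1))
      (szx _ ha_mem (by omega) b hab.symm hbc)
  have XRX' : XR cs {a, b} (x * w0 cs a c * cs.simple c * cs.simple a) := by
    have e : x * w0 cs a c * cs.simple c * cs.simple a = x * (h * cs.simple a) := by
      rw [hh, mul_assoc, mul_assoc, mul_assoc]
    rw [e]
    exact XRX
  refine ⟨XRX', fun hby => ?_⟩
  have y_nb : ¬ cs.IsLeftDescent y b := by
    rw [cs.not_isLeftDescent_iff]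
    exact hy b (by simp)
  have y_nc : ¬ cs.IsLeftDescent y c := by
    rw [cs.not_isLeftDescent_iff]
    exact hy c (by simp)
  obtain ⟨q, q_mem, y6, hy6, hyq⟩ := hPC4 y
  have y_len : cs.length y = cs.length q + cs.length y6 := by
    rw [hyq]
    exact hPC5 y6 hy6 q q_mem
  have q_nb : ¬ cs.IsLeftDescent q b := by
    intro h1
    apply y_nb
    rw [hyq]
    exact (pL {a, b} y6 q b hy6 q_mem (by simp)).2 h1
  have bq_mem : cs.simple b * q ∈ par cs {a, b} := (par cs {a, b}).mul_mem sb_ab q_mem
  have bq_len : cs.length (cs.simple b * q) = cs.length q + 1 := nld_len q_nb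
  have bq_na : ¬ cs.IsLeftDescent (cs.simple b * q) a := by
    intro h1
    apply hby
    rw [hyq, ← mul_assoc]
    exact (pL {a, b} y6 _ a hy6 bq_mem (by simp)).2 h1
  have g_mem : cs.simple a * (cs.simple b * q) ∈ par cs {a, b} := (par cs {a, b}).mul_mem sa_ab bq_mem
  have g_len : cs.length (cs.simple a * (cs.simple b * q)) = cs.length q + 2 := by
    rw [nld_len bq_na, bq_len]
  have hfull : Full cs a b (cs.simple a * (cs.simple b * q)) := (fab _).2 ⟨g_mem, by omega⟩
  -- no `c` in `L(b y)`
  have by_nc : ¬ cs.IsLeftDescent (cs.simple b * y) c := by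
    intro h1
    have h2 := (dL b c hbc (hL.fin b c) (cs.simple b * y) (nld_mul y_nb) h1).2.1
    rw [cs.simple_mul_simple_cancel_left] at h2
    exact y_nc h2
  have core : ∀ X : W, XR cs {a, b} X →
      (∀ r, r ≠ a → r ≠ b → cs.IsRightDescent (X * cs.simple a) r → r = c) →
      (∀ r, r ≠ a → r ≠ c → ¬ cs.IsRightDescent X r) →
      cs.length (X * (cs.simple a * (cs.simple b * q)) * y6) =
        cs.length X + cs.length (cs.simple a * (cs.simple b * q)) + cs.length y6 := by
    intro X hX hi hii
    by_cases hq2 : 2 ≤ cs.length q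
    · exact (geo a b X _ y6 hab hX hfull hy6).2 (by omega)
    by_contra hne
    have hT4 := (geo a b X _ y6 hab hX hfull hy6).1 hne
    by_cases hq0 : cs.length q = 0
    · -- q = 1
      have hq1 : q = 1 := cs.length_eq_zero_iff.1 hq0
      subst hq1
      rw [one_mul] at hyq
      subst hyq
      have e : cs.simple a * (cs.simple b * 1) = cs.simple a * cs.simple b := by rw [mul_one]
      rw [e] at hT4
      rcases hT4 with hT | hT | hT | hT
      · obtain ⟨p, q', r, hpq, hpr, hqr, hg, h1, h2⟩ := hT
        rcases two_letters hKD1 hab hpq hL.fin hg with ⟨rfl, rfl⟩ | ⟨-, -, hM2⟩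
        · have h3 := hi r hpr.symm hqr.symm h1
          subst h3
          exact by_nc h2
        · exact hMab hM2
      · obtain ⟨p, q', r, hpr, hqr, hMpq, hg, h1, h2, h3, h4⟩ := hT
        rcases two_letters hKD1 hab hpr hL.fin hg with ⟨rfl, rfl⟩ | ⟨-, -, hM2⟩
        · have hqa : q' ≠ p := by
            rintro rfl
            rw [M.diagonal] at hMpq
            omega
          have hqc : q' ≠ c := by
            rintro rfl
            exact hMac hMpq
          exact hii q' hqa hqc h1
        · exact hMab hM2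
      · obtain ⟨p, q', r, hpr, hqr, hMpq, hg, h1, h2, h3, h4⟩ := hT
        rcases two_letters hKD1 hab hqr.symm hL.fin hg with ⟨rfl, rfl⟩ | ⟨-, -, hM2⟩
        · rw [M.symmetric] at hMpq
          have h5 := hL.mat q' p c hMpq hMbc
          subst h5
          exact y_nc h1
        · exact hMab hM2
      · obtain ⟨p, q', r, hpq, hpr, hMqr, hg, h1, h2⟩ := hT
        have hMpq : M p q' ≠ 2 := by
          intro h5
          rw [M.symmetric] at h5
          exact hpr (hL.mat q' p r h5 hMqr)
        have h6 := hL.big p q' hpq hMpq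
        have h7 := (hKD1 S W M cs p q' hpq (hL.fin p q')).2.2.2.2.2.2.2.2.2.1 (by omega)
        rw [← hg, len2ab] at h7
        omega
    · -- q = s_a
      have hqa : q = cs.simple a := by
        rcases (oneab q q_mem).1 (by omega) with h1 | h1
        · exact h1
        · exfalso
          apply q_nb
          rw [h1, cs.isLeftDescent_iff, cs.simple_mul_simple_self, cs.length_one, cs.length_simple]
      subst hqa
      have e : cs.simple a * (cs.simple b * cs.simple a) = cs.simple a * cs.simple b * cs.simple a := by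
        rw [mul_assoc]
      rw [e] at hT4
      have len3 := len3ab (by omega)
      have two : ∀ p r : S, p ≠ r → cs.simple a * cs.simple b * cs.simple a ≠ cs.simple p * cs.simple r := by
        intro p r hpr hg
        have h5 := (hKD1 S W M cs p r hpr (hL.fin p r)).2.2.2.2.2.2.2.2.1
        rw [← hg, len3] at h5
        omega
      rcases hT4 with hT | hT | hT | hT
      · obtain ⟨p, q', r, hpq, hpr, hqr, hg, h1, h2⟩ := hT
        exact two p q' hpq hg
      · obtain ⟨p, q', r, hpr, hqr, hMpq, hg, h1, h2, h3, h4⟩ := hT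
        exact two p r hpr hg
      · obtain ⟨p, q', r, hpr, hqr, hMpq, hg, h1, h2, h3, h4⟩ := hT
        exact two r q' hqr.symm hg
      · obtain ⟨p, q', r, hpq, hpr, hMqr, hg, h1, h2⟩ := hT
        have hMpq : M p q' ≠ 2 := by
          intro h5
          rw [M.symmetric] at h5
          exact hpr (hL.mat q' p r h5 hMqr)
        have h6 := hL.big p q' hpq hMpq
        obtain ⟨rfl, rfl⟩ := three_letters hKD1 hab hpq hL.fin h7ab h6 hg
        have h7 := hL.mat q' r c hMqr hMbc
        subst h7
        rw [← hyq] at h2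
        exact y_nc h2
  constructor
  · have e : x * (w0 cs a c * cs.simple c) * (cs.simple b * y) =
        x * (h * cs.simple a) * (cs.simple a * (cs.simple b * q)) * y6 := by
      rw [← hh, hyq, mul_assoc (x * (h * cs.simple a)), mul_assoc (cs.simple a) _ y6, ← mul_assoc x h,
        mul_assoc (x * h) (cs.simple a), cs.simple_mul_simple_cancel_left, mul_assoc (cs.simple b) q y6]
    rw [e, core _ XRX, hPA x hx _ ha_mem, g_len]
    · omega
    · intro r hra hrb h1
      rw [← mul_assoc, cs.simple_mul_simple_cancel_right] at h1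
      by_contra hrc
      exact szx h h_mem (by omega) r hra hrc h1
    · exact szx _ ha_mem (by omega)
  · have hx0' : XR cs {a, b} (x * (w0 cs a c * cs.simple a)) := by
      rw [← mul_assoc]
      exact hx0
    have e : x * w0 cs a c * (cs.simple b * y) =
        x * (w0 cs a c * cs.simple a) * (cs.simple a * (cs.simple b * q)) * y6 := by
      rw [hyq, mul_assoc (x * (w0 cs a c * cs.simple a)), mul_assoc (cs.simple a) _ y6, ← mul_assoc x (w0 cs a c),
        mul_assoc (x * w0 cs a c) (cs.simple a), cs.simple_mul_simple_cancel_left, mul_assoc (cs.simple b) q y6]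
    rw [e, core _ hx0', hPA x hx _ wa_mem, g_len]
    · omega
    · intro r hra hrb h1
      rw [← mul_assoc, cs.simple_mul_simple_cancel_right] at h1
      by_contra hrc
      exact szx _ wac_mem (by omega) r hra hrc h1
    · exact szx _ wa_mem (by omega)

end Pool.Agent.Helper13.LL.RA1
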